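import Pool.Agent.Helper67.KPG.St2
import Pool.Agent.Helper67.KPG.St3
import Pool.Agent.Helper6.NO.M_DAD

/-!
# Project KP (MP_26be5b_ag), module DXP: derivative of the exponential map
-/

set_option autoImplicit false

namespace Pool.Agent.Helper2.KPG

open Pool.Agent.Helper67.NO Pool.Agent.Helper52.KP Pool.Agent.Helper67.KPG
open NormedSpace Filter Topology

universe u

section banach

variable {A : Type} [NormedRing A] [NormedAlgebra ℂ A] [CompleteSpace A]

theorem dxp_cont : Continuous (exp : A → A) := by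
  let _ : NormedAlgebra ℚ A := NormedAlgebra.restrictScalars ℚ ℂ A
  exact exp_continuous

theorem dxp_inv (x : A) : exp x * exp (-x) = 1 := by
  let _ : NormedAlgebra ℚ A := NormedAlgebra.restrictScalars ℚ ℂ A
  rw [← exp_add_of_commute (Commute.refl x).neg_right, add_neg_cancel, exp_zero]

/-- The derivative of `exp` at `X` in the direction `B` in a Banach algebra. -/
theorem dxp_key (X B : A) (Q : ℝ → A)
    (hQ : ∀ t : ℝ, HasDerivAt Q (exp (-(t • X)) * B * exp (t • X)) t) (hQ0 : Q 0 = 0) :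
    HasDerivAt (fun s : ℂ => exp (X + s • B)) (exp X * Q 1) 0 := by
  have hc1 : Continuous (exp : A → A) := dxp_cont
  have hG : ∀ (s : ℂ) (t : ℝ), HasDerivAt (fun t : ℝ => exp (-(t • X)) * exp (t • (X + s • B)))
      (exp (-(t • X)) * (s • B) * exp (t • (X + s • B))) t := by
    intro s t
    have h1 : HasDerivAt (fun t : ℝ => exp (t • (-X))) (exp (t • (-X)) * (-X)) t :=
      hasDerivAt_exp_smul_const (-X) t
    have h2 : HasDerivAt (fun t : ℝ => exp (t • (X + s • B)))
        ((X + s • B) * exp (t • (X + s • B))) t := hasDerivAt_exp_smul_const' (X + s • B) t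
    simp only [smul_neg] at h1
    have h3 := h1.mul h2
    refine h3.congr_deriv ?_
    noncomm_ring
  have hcF : Continuous (Function.uncurry fun (s : ℂ) (t : ℝ) =>
      exp (-(t • X)) * B * exp (t • (X + s • B))) := by
    refine Continuous.mul (Continuous.mul (hc1.comp ?_) continuous_const) (hc1.comp ?_)
    · fun_prop
    · fun_prop
  have hcH : Continuous (fun s : ℂ => ∫ t in (0:ℝ)..1, exp (-(t • X)) * B * exp (t • (X + s • B))) :=
    intervalIntegral.continuous_parametric_intervalIntegral_of_continuous' hcF 0 1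
  set H : ℂ → A := fun s => ∫ t in (0:ℝ)..1, exp (-(t • X)) * B * exp (t • (X + s • B)) with hH
  have hH0 : H 0 = Q 1 := by
    have h1 : ∫ t in (0:ℝ)..1, exp (-(t • X)) * B * exp (t • X) = Q 1 - Q 0 := by
      refine intervalIntegral.integral_eq_sub_of_hasDerivAt (fun t _ => hQ t) ?_
      refine Continuous.intervalIntegrable ?_ _ _
      exact Continuous.mul (Continuous.mul (hc1.comp (by fun_prop)) continuous_const)
        (hc1.comp (by fun_prop))
    rw [hQ0, sub_zero] at h1
    rw [← h1, hH]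
    simp
  have hid : ∀ s : ℂ, exp (-X) * exp (X + s • B) = 1 + s • H s := by
    intro s
    have h1 : ∫ t in (0:ℝ)..1, exp (-(t • X)) * (s • B) * exp (t • (X + s • B)) =
        exp (-((1:ℝ) • X)) * exp ((1:ℝ) • (X + s • B)) -
          exp (-((0:ℝ) • X)) * exp ((0:ℝ) • (X + s • B)) := by
      refine intervalIntegral.integral_eq_sub_of_hasDerivAt (fun t _ => hG s t) ?_
      refine Continuous.intervalIntegrable ?_ _ _
      exact Continuous.mul (Continuous.mul (hc1.comp (by fun_prop)) continuous_const)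
        (hc1.comp (by fun_prop))
    have h2 : ∫ t in (0:ℝ)..1, exp (-(t • X)) * (s • B) * exp (t • (X + s • B)) = s • H s := by
      rw [hH]
      simp only
      rw [← intervalIntegral.integral_smul]
      congr 1
      funext t
      rw [mul_smul_comm, smul_mul_assoc]
    rw [h2] at h1
    simp only [one_smul, zero_smul, neg_zero, exp_zero, mul_one] at h1
    rw [h1]
    abel
  have hder : HasDerivAt (fun s : ℂ => exp (-X) * exp (X + s • B)) (Q 1) 0 := by
    rw [hasDerivAt_iff_tendsto_slope, ← hH0]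
    have h1 : Tendsto H (𝓝[≠] 0) (𝓝 (H 0)) := (hcH.tendsto 0).mono_left nhdsWithin_le_nhds
    refine h1.congr' ?_
    filter_upwards [self_mem_nhdsWithin] with s hs
    have hs0 : s ≠ 0 := hs
    rw [slope_def_module, hid s, hid 0]
    simp [smul_smul, inv_mul_cancel₀ hs0]
  have h4 := hder.const_mul (exp X)
  refine h4.congr_of_eventuallyEq (Filter.Eventually.of_forall fun s => ?_)
  show exp (X + s • B) = exp X * (exp (-X) * exp (X + s • B))
  rw [← mul_assoc, dxp_inv, one_mul]

end banach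

open scoped Matrix.Norms.Frobenius

theorem dxp_mat {n : Type} [Fintype n] [DecidableEq n] (X B : Matrix n n ℂ) (Q : ℝ → Matrix n n ℂ)
    (hQ : ∀ t : ℝ, HasDerivAt Q (exp (-(t • X)) * B * exp (t • X)) t) (hQ0 : Q 0 = 0) :
    HasDerivAt (fun s : ℂ => exp (X + s • B)) (exp X * Q 1) 0 :=
  dxp_key X B Q hQ hQ0

section

variable {g : Type u} [LieRing g] [LieAlgebra ℂ g] [FiniteDimensional ℂ g]

theorem dxp_co (v x : g) :
    co (expAd v x) = Matrix.mulVec (exp (adM (Module.finBasis ℂ g) v)) (co x) := by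
  have h := LinearMap.toMatrix_mulVec_repr (Module.finBasis ℂ g) (Module.finBasis ℂ g) (expAd v) x
  have h2 := (Pool.Agent.Helper6.NO.pDAD.{u} (Fin (Module.finrank ℂ g)) g
    (Module.finBasis ℂ g)).2.2.1 v
  rw [h2] at h
  exact h.symm

theorem dxp_ad (v x : g) :
    co ⁅v, x⁆ = Matrix.mulVec (adM (Module.finBasis ℂ g) v) (co x) := by
  have h := LinearMap.toMatrix_mulVec_repr (Module.finBasis ℂ g) (Module.finBasis ℂ g)
    (LieAlgebra.ad ℂ g v : g →ₗ[ℂ] g) x
  exact h.symm

omit [FiniteDimensional ℂ g] in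
theorem dxp_pow (u : g) (c : ℂ) (k : ℕ) (x : g) :
    ((LieAlgebra.ad ℂ g (c • u) : Module.End ℂ g) ^ k) x =
      c ^ k • ((LieAlgebra.ad ℂ g u : Module.End ℂ g) ^ k) x := by
  rw [map_smul, smul_pow]
  rfl

end

theorem hDXP : StGPF.{u} → StDXP.{u} := by
  intro hG g _ _ _ u a N hN x
  have hg := hG g
  set b := Module.finBasis ℂ g with hb
  set X := adM b u with hX
  set B := adM b a with hB
  set ak : ℕ → Matrix (Fin (Module.finrank ℂ g)) (Fin (Module.finrank ℂ g)) ℂ :=
    fun k => adM b (((LieAlgebra.ad ℂ g u : Module.End ℂ g) ^ k) a) with hak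
  set Q : ℝ → Matrix (Fin (Module.finrank ℂ g)) (Fin (Module.finrank ℂ g)) ℂ :=
    fun t => ∑ k ∈ Finset.range (2 * N + 1),
      (((-1 : ℂ) ^ k * (t : ℂ) ^ (k + 1)) / ((k + 1).factorial : ℂ)) • ak k with hQdef
  have hexp : ∀ t : ℝ, exp (-(t • X)) * B * exp (t • X) =
      ∑ k ∈ Finset.range (2 * N + 1), (((-1 : ℂ) ^ k * (t : ℂ) ^ k) / (k.factorial : ℂ)) • ak k := by
    intro t
    have h1 := (Pool.Agent.Helper6.NO.pDAD.{u} (Fin (Module.finrank ℂ g)) g b).2.2.2.1
      ((-(t : ℂ)) • u) a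
    have h2 : adM b ((-(t : ℂ)) • u) = -(t • X) := by
      rw [map_smul, neg_smul]
      rfl
    rw [h2, neg_neg] at h1
    rw [← hB] at h1
    rw [← h1]
    have h3 : ((LieAlgebra.ad ℂ g ((-(t : ℂ)) • u) : Module.End ℂ g) ^ (2 * N + 1)) a = 0 := by
      rw [dxp_pow, hN, smul_zero]
    rw [hg.ser _ _ _ h3, map_sum]
    refine Finset.sum_congr rfl fun k _ => ?_
    rw [dxp_pow, map_smul, map_smul, smul_smul]
    congr 1
    rw [neg_eq_neg_one_mul, mul_pow]
    field_simp
  have hQ : ∀ t : ℝ, HasDerivAt Q (exp (-(t • X)) * B * exp (t • X)) t := by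
    intro t
    rw [hexp t]
    rw [hQdef]
    refine HasDerivAt.fun_sum fun k _ => ?_
    refine HasDerivAt.smul_const ?_ (ak k)
    have h1 : HasDerivAt (fun z : ℂ => ((-1 : ℂ) ^ k * z ^ (k + 1)) / ((k + 1).factorial : ℂ))
        (((-1 : ℂ) ^ k * (t : ℂ) ^ k) / (k.factorial : ℂ)) (t : ℂ) := by
      have h2 := (((hasDerivAt_pow (k + 1) (t : ℂ)).const_mul ((-1 : ℂ) ^ k)).div_const
        ((k + 1).factorial : ℂ))
      refine h2.congr_deriv ?_
      have hk : ((k + 1 : ℕ) : ℂ) ≠ 0 := by exact_mod_cast Nat.succ_ne_zero k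
      have hk2 : ((k.factorial : ℕ) : ℂ) ≠ 0 := by exact_mod_cast Nat.factorial_ne_zero k
      rw [Nat.factorial_succ]
      push_cast at hk ⊢
      field_simp
    exact h1.comp_ofReal
  have hQ0 : Q 0 = 0 := by
    rw [hQdef]
    simp
  have hQ1 : Q 1 = adM b (th N u a) := by
    rw [hQdef]
    simp only [th, LinearMap.sum_apply, LinearMap.smul_apply, map_sum, map_smul]
    refine Finset.sum_congr rfl fun k _ => ?_
    simp [hak]
  have hmain := dxp_mat X B Q hQ hQ0
  set φ : Matrix (Fin (Module.finrank ℂ g)) (Fin (Module.finrank ℂ g)) ℂ →ₗ[ℂ]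
      (Fin (Module.finrank ℂ g) → ℂ) :=
    { toFun := fun M => Matrix.mulVec M (co x)
      map_add' := fun M M' => Matrix.add_mulVec M M' (co x)
      map_smul' := fun c M => Matrix.smul_mulVec c M (co x) } with hφ
  have h5 := (LinearMap.toContinuousLinearMap φ).hasFDerivAt.comp_hasDerivAt (0 : ℂ) hmain
  have h6 : (fun s : ℂ => co (expAd (u + s • a) x)) =
      (LinearMap.toContinuousLinearMap φ) ∘ (fun s : ℂ => exp (X + s • B)) := by
    funext s
    rw [dxp_co, map_add, map_smul]
    rfl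
  have h7 : co (expAd u ⁅th N u a, x⁆) = (LinearMap.toContinuousLinearMap φ) (exp X * Q 1) := by
    rw [dxp_co, dxp_ad, hQ1, Matrix.mulVec_mulVec]
    rfl
  rw [h6, h7]
  exact h5

end Pool.Agent.Helper2.KPG
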