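import Pool.Agent.Helper67.KPG.St2
import Pool.Agent.Helper67.KPG.St3

/-!
# Project KP (MP_26be5b_ag), module IMM: the derivatives of the chart are a basis of the tangent space
-/

set_option autoImplicit false

namespace Pool.Agent.Helper2.KPG

open Pool.Agent.Helper67.NO Pool.Agent.Helper52.KP Pool.Agent.Helper67.KPG

universe u

section

variable {g : Type u} [LieRing g] [LieAlgebra ℂ g] [FiniteDimensional ℂ g]
  {e h f : g} {N : ℕ} {pr : ℤ → g →ₗ[ℂ] g}

theorem imm_pre (hF : SlF e h f N pr) (hg : GPs g) {w : g →ₗ[ℂ] g} (hw : GP (ge pr 0) w) (j : ℤ)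
    {x : g} (hx : x ∈ ge pr j) : w x ∈ ge pr j := by
  refine hg.sub (ge pr 0) (ge pr j) (fun v hv x hx => ?_) w hw x hx
  have h1 := hF.brge 0 j v x hv hx
  rwa [zero_add] at h1

/-- `[g_(≥ 0), y] = g_(≥ 2)` and `ker (ad y) ⊆ g_(≥ 0)` for `y = b e`. -/
theorem imm_ab (hF : SlF e h f N pr) (hE : SlE e h f N pr) (hg : GPs g) {b : g →ₗ[ℂ] g}
    (hb : GP (ge pr 0) b) {y : g} (hy : y = b e) :
    (∀ v ∈ ge pr 2, ∃ x ∈ ge pr 0, ⁅x, y⁆ = v) ∧ (∀ x, ⁅y, x⁆ = 0 → x ∈ ge pr 0) := by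
  obtain ⟨b', hb', h1, h2⟩ := hg.inv _ b hb
  have h1' : ∀ x, b (b' x) = x := fun x => LinearMap.congr_fun h1 x
  have h2' : ∀ x, b' (b x) = x := fun x => LinearMap.congr_fun h2 x
  constructor
  · intro v hv
    obtain ⟨x, hx, hxe⟩ := hE.surj (b' v) (imm_pre hF hg hb' 2 hv)
    refine ⟨b x, imm_pre hF hg hb 0 hx, ?_⟩
    rw [hy, ← hg.lie _ b hb, hxe, h1']
  · intro x hx
    have h3 : ⁅e, b' x⁆ = 0 := by
      have h4 := hg.lie _ b' hb' y x
      rw [hx, map_zero, hy, h2'] at h4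
      exact h4.symm
    have h5 := imm_pre hF hg hb 0 (hE.ker0 _ h3)
    rwa [h1'] at h5

omit [FiniteDimensional ℂ g] in
theorem imm_th (hF : SlF e h f N pr) {u : g} (hu : u ∈ le pr (-1)) (j : ℤ) {x : g}
    (hx : x ∈ le pr j) : th N u x ∈ le pr j := by
  rw [th, LinearMap.sum_apply]
  refine Submodule.sum_mem _ fun k _ => ?_
  rw [LinearMap.smul_apply]
  refine Submodule.smul_mem _ _ ?_
  exact hF.lemono (j - k) j (by omega) (hF.nil u hu k j x hx)

omit [FiniteDimensional ℂ g] in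
theorem imm_th1 (hF : SlF e h f N pr) {u : g} (hu : u ∈ le pr (-1)) (j : ℤ) {x : g}
    (hx : x ∈ le pr j) (h0 : th N u x = 0) : x ∈ le pr (j - 1) := by
  rw [th, LinearMap.sum_apply, Finset.sum_range_succ'] at h0
  have h1 : x = -∑ k ∈ Finset.range (2 * N), (((-1 : ℂ) ^ (k + 1)) /
      ((k + 1 + 1).factorial : ℂ)) • (((LieAlgebra.ad ℂ g u : Module.End ℂ g) ^ (k + 1)) x) := by
    rw [eq_neg_iff_add_eq_zero, add_comm]
    simpa using h0
  rw [h1]
  refine Submodule.neg_mem _ (Submodule.sum_mem _ fun k _ => Submodule.smul_mem _ _ ?_)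
  exact hF.lemono (j - ((k + 1 : ℕ) : ℤ)) (j - 1) (by push_cast; omega)
    (hF.nil u hu (k + 1) j x hx)

omit [FiniteDimensional ℂ g] in
theorem imm_inj (hF : SlF e h f N pr) {u : g} (hu : u ∈ le pr (-1)) {x : g}
    (hx : x ∈ le pr (-1)) (h0 : th N u x = 0) : x = 0 := by
  have h1 : ∀ s : ℕ, x ∈ le pr (-1 - (s : ℤ)) := by
    intro s
    induction s with
    | zero => simpa using hx
    | succ s ih =>
      have h2 := imm_th1 hF hu _ ih h0
      have h3 : (-1 - (s : ℤ) - 1) = -1 - ((s + 1 : ℕ) : ℤ) := by push_cast; ring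
      rwa [h3] at h2
  have h4 := h1 N
  rw [hF.lebot _ (by omega)] at h4
  exact (Submodule.mem_bot ℂ).1 h4

end

theorem hIMM : StBAS.{u} → StBAE.{u} → StGPF.{u} → StPHI.{u} → StIMM.{u} := by
  intro hBAS hBAE hGPF hPHI g _ _ _ e h f N pr hSl m w E hB b z hb hy
  have hF := hBAS g e h f N pr hSl
  have hE := hBAE g e h f N pr hSl
  have hg := hGPF g
  obtain ⟨hP1, hP2, -, -, -, hP6, -⟩ := hPHI g e h f N pr hSl m w E hB
  obtain ⟨ha, hk⟩ := imm_ab hF hE hg hb hy
  have hexp : GP (⊤ : Submodule ℂ g) (expAd (uu w E z)) := hg.exp ⊤ _ trivial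
  have hlie : ∀ p q : g, expAd (uu w E z) ⁅p, q⁆ = ⁅expAd (uu w E z) p, expAd (uu w E z) q⁆ :=
    hg.lie ⊤ _ hexp
  have hli : LinearIndependent ℂ (tv N w E z) := by
    rw [Fintype.linearIndependent_iff]
    intro c hc
    have hsum : ∑ i, c i • tv N w E z i =
        expAd (uu w E z) (⁅th N (uu w E z) (uu w E c), yy w E z⁆ + yy w E c) := by
      rw [map_add, hlie]
      have h1 : uu w E c = ∑ j, if w j = 0 then c j • E j else 0 := rfl
      have h2 : yy w E c = ∑ j, if w j = 1 then c j • E j else 0 := rfl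
      rw [h1, h2, map_sum, map_sum, map_sum, sum_lie, ← Finset.sum_add_distrib]
      refine Finset.sum_congr rfl fun i _ => ?_
      rcases hB.w01 i with h0 | h0
      · simp only [tv, h0, if_true, if_neg (zero_ne_one), map_zero, add_zero, map_smul, smul_lie]
        rfl
      · simp only [tv, h0, if_true, if_neg (one_ne_zero), map_zero, zero_lie, zero_add, map_smul]
    rw [hsum] at hc
    have h3 : ⁅th N (uu w E z) (uu w E c), yy w E z⁆ + yy w E c = 0 := by
      have h4 := (hg.neg (uu w E z) (⁅th N (uu w E z) (uu w E c), yy w E z⁆ + yy w E c)).1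
      rw [hc, map_zero] at h4
      exact h4.symm
    obtain ⟨x, hx, hxy⟩ := ha (-yy w E c) (Submodule.neg_mem _ (hP2 c))
    have h5 : ⁅yy w E z, th N (uu w E z) (uu w E c) - x⁆ = 0 := by
      rw [← lie_skew, sub_lie, hxy, sub_neg_eq_add, h3, neg_zero]
    have h6 : th N (uu w E z) (uu w E c) ∈ ge pr 0 := by
      have h7 := Submodule.add_mem _ (hk _ h5) hx
      rwa [sub_add_cancel] at h7
    have h8 : th N (uu w E z) (uu w E c) ∈ le pr (0 - 1) := by
      rw [zero_sub]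
      exact imm_th hF (hP1 z) _ (hP1 c)
    have h9 : th N (uu w E z) (uu w E c) = 0 :=
      (Submodule.disjoint_def.1 (hF.cpl 0).disjoint) _ h6 h8
    have h10 : uu w E c = 0 := imm_inj hF (hP1 z) (hP1 c) h9
    have h11 : yy w E c = 0 := by
      rw [h9, zero_lie, zero_add] at h3
      exact h3
    intro i
    obtain ⟨φ, hφ⟩ := hP6 i
    rcases hB.w01 i with h0 | h0
    · rw [← (hφ c).1 h0, h10, map_zero]
    · rw [← (hφ c).2 h0, h11, map_zero]
  refine ⟨hli, ?_⟩
  have hle : Submodule.span ℂ (Set.range (tv N w E z)) ≤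
      LinearMap.range (LieAlgebra.ad ℂ g (phi w E z) : g →ₗ[ℂ] g) := by
    rw [Submodule.span_le]
    rintro _ ⟨i, rfl⟩
    rcases hB.w01 i with h0 | h0
    · refine ⟨-expAd (uu w E z) (th N (uu w E z) (E i)), ?_⟩
      rw [LieAlgebra.ad_apply, lie_neg, lie_skew, tv, if_pos h0]
    · obtain ⟨x, hx, hxy⟩ := ha (E i) (hB.m1 i h0)
      refine ⟨-expAd (uu w E z) x, ?_⟩
      rw [LieAlgebra.ad_apply, lie_neg, lie_skew, tv, if_neg (by omega), ← hxy, hlie]
      rfl
  refine Submodule.eq_of_le_of_finrank_eq hle ?_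
  rw [finrank_span_eq_card hli, Fintype.card_fin]
  have h12 : rk (phi w E z) = rk e := by
    rw [phi, hg.rk ⊤ _ hexp, hy, hg.rk _ b hb]
  exact hB.hm.trans h12.symm

end Pool.Agent.Helper2.KPG
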